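import Pool.Agent.P8H14.EX.Stm
import Pool.Agent.H305R2.MertensE

/-!
Project EX (helper14), package MER.
-/

set_option autoImplicit false

namespace Pool.Agent.P8H86.EX

open Finset Filter Topology
open Pool.Agent.P8H14.CF
open Pool.Agent.P8H14.EX

/-- the Mertens product -/
noncomputable def MM (z : ℕ) : ℝ := ∏ p ∈ (Finset.Icc 1 z).filter Nat.Prime, (1 - (p : ℝ)⁻¹)⁻¹

lemma op_ge {z p : ℕ} (h : p ∈ op z) : 3 ≤ p := (mem_Icc.1 (mem_filter.1 h).1).1

lemma MM_eq {z : ℕ} (hz : 2 ≤ z) : MM z = 2 * ∏ p ∈ op z, (1 - (p : ℝ)⁻¹)⁻¹ := by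
  have h1 : (Finset.Icc 1 z).filter Nat.Prime = insert 2 (op z) := by
    ext p
    simp only [mem_filter, mem_Icc, mem_insert, op]
    constructor
    · rintro ⟨⟨-, h2⟩, h3⟩
      rcases Nat.lt_or_ge p 3 with h | h
      · left
        have := h3.two_le
        omega
      · right
        exact ⟨⟨h, h2⟩, h3⟩
    · rintro (rfl | ⟨⟨h1, h2⟩, h3⟩)
      · exact ⟨⟨by norm_num, hz⟩, Nat.prime_two⟩
      · exact ⟨⟨by omega, h2⟩, h3⟩
  have h2 : 2 ∉ op z := fun h => by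
    have := op_ge h
    omega
  unfold MM
  rw [h1, prod_insert h2]
  norm_num

lemma VS_neg {z : ℕ} (hz : 2 ≤ z) : VS (-1) z = MM z := by
  rw [MM_eq hz]
  unfold VS
  congr 1
  refine prod_congr rfl fun p hp => ?_
  have h3 : (3 : ℝ) ≤ p := by exact_mod_cast op_ge hp
  have h4 : (p : ℝ) - 1 ≠ 0 := by linarith
  have h5 : (p : ℝ) ≠ 0 := by linarith
  have h6 : 1 - (p : ℝ)⁻¹ = ((p : ℝ) - 1) / p := by
    field_simp
  rw [h6, inv_div]
  push_cast
  field_simp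
  ring

/-- the function with the product `C2` -/
noncomputable def FF (n : ℕ) : ℝ :=
  {p : ℕ | p.Prime}.mulIndicator (fun n => if n = 2 then (1 : ℝ) else 1 - 1 / ((n : ℝ) - 1) ^ 2) n

lemma C2_eq : C2 = ∏' n, FF n := by
  unfold C2 FF
  exact tprod_subtype {p : ℕ | p.Prime} (fun n => if n = 2 then (1 : ℝ) else 1 - 1 / ((n : ℝ) - 1) ^ 2)

lemma FF_eq (n : ℕ) : FF n = 1 + (if n.Prime ∧ n ≠ 2 then -(1 / ((n : ℝ) - 1) ^ 2) else 0) := by
  unfold FF
  by_cases h : n.Prime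
  · rw [Set.mulIndicator_of_mem (show n ∈ {p : ℕ | p.Prime} from h)]
    by_cases h2 : n = 2
    · rw [if_pos h2, if_neg (fun h' => h'.2 h2), add_zero]
    · rw [if_neg h2, if_pos ⟨h, h2⟩]
      ring
  · rw [Set.mulIndicator_of_notMem (show n ∉ {p : ℕ | p.Prime} from h), if_neg (fun h' => h h'.1),
      add_zero]

lemma multipliable_FF : Multipliable FF := by
  have e : FF = fun n : ℕ => 1 + (if n.Prime ∧ n ≠ 2 then -(1 / ((n : ℝ) - 1) ^ 2) else 0) :=
    funext FF_eq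
  rw [e]
  apply multipliable_one_add_of_summable
  have hs : Summable fun n : ℕ => 4 * (1 / (n : ℝ) ^ 2) :=
    (Real.summable_one_div_nat_pow.2 (by norm_num)).mul_left 4
  refine Summable.of_nonneg_of_le (fun n => norm_nonneg _) (fun n => ?_) hs
  by_cases h : n.Prime ∧ n ≠ 2
  · rw [if_pos h, norm_neg, Real.norm_eq_abs, abs_of_nonneg (by positivity)]
    have h2 : (2 : ℝ) ≤ n := by exact_mod_cast h.1.two_le
    have h3 : (n : ℝ) ^ 2 / 4 ≤ ((n : ℝ) - 1) ^ 2 := by nlinarith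
    have h4 : 0 < (n : ℝ) ^ 2 / 4 := by positivity
    calc 1 / ((n : ℝ) - 1) ^ 2 ≤ 1 / ((n : ℝ) ^ 2 / 4) := one_div_le_one_div_of_le h4 h3
      _ = 4 * (1 / (n : ℝ) ^ 2) := by field_simp
  · rw [if_neg h, norm_zero]
    positivity

lemma prod_FF (z : ℕ) : ∏ n ∈ range (z + 1), FF n = ∏ p ∈ op z, (1 - 1 / ((p : ℝ) - 1) ^ 2) := by
  have hsub : op z ⊆ range (z + 1) := by
    intro p hp
    have := (mem_Icc.1 (mem_filter.1 hp).1).2
    exact mem_range.2 (by omega)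
  rw [← prod_subset hsub]
  · refine prod_congr rfl fun p hp => ?_
    rw [FF_eq, if_pos ⟨(mem_filter.1 hp).2, by have := op_ge hp; omega⟩]
    ring
  · intro n hn hn2
    rw [FF_eq, if_neg, add_zero]
    rintro ⟨h1, h2⟩
    apply hn2
    have := h1.two_le
    exact mem_filter.2 ⟨mem_Icc.2 ⟨by omega, by have := mem_range.1 hn; omega⟩, h1⟩

lemma VS_one {z : ℕ} (hz : 2 ≤ z) : VS 1 z = 4 * (∏ n ∈ range (z + 1), FF n) * (MM z)⁻¹ := by
  rw [prod_FF, MM_eq hz]
  unfold VS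
  rw [mul_inv, ← prod_inv_distrib]
  have : ∏ p ∈ op z, (1 - ((1 : ℤ) : ℝ) / ((p : ℝ) - 1)) =
      (∏ p ∈ op z, (1 - 1 / ((p : ℝ) - 1) ^ 2)) * ∏ p ∈ op z, ((1 - (p : ℝ)⁻¹)⁻¹)⁻¹ := by
    rw [← prod_mul_distrib]
    refine prod_congr rfl fun p hp => ?_
    have h3 : (3 : ℝ) ≤ p := by exact_mod_cast op_ge hp
    have h4 : (p : ℝ) - 1 ≠ 0 := by linarith
    have h5 : (p : ℝ) ≠ 0 := by linarith
    rw [inv_inv]
    push_cast
    field_simp
    ring
  rw [this]
  ring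

theorem mer : S_MER := by
  have hM : Tendsto (fun z : ℕ => MM z / Real.log z) atTop
      (𝓝 (Real.exp Real.eulerMascheroniConstant)) := Pool.Agent.H305R2.mertens_three
  constructor
  · refine hM.congr' ?_
    filter_upwards [eventually_ge_atTop 2] with z hz
    rw [VS_neg hz]
  · have hF : Tendsto (fun z : ℕ => ∏ n ∈ range (z + 1), FF n) atTop (𝓝 C2) := by
      rw [C2_eq]
      exact (multipliable_FF.hasProd.tendsto_prod_nat).comp (tendsto_add_atTop_nat 1)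
    have hI := hM.inv₀ (Real.exp_ne_zero _)
    have h1 := ((tendsto_const_nhds (x := (4 : ℝ))).mul hF).mul hI
    rw [← Real.exp_neg] at h1
    refine h1.congr' ?_
    filter_upwards [eventually_ge_atTop 2] with z hz
    rw [VS_one hz, inv_div]
    field_simp

end Pool.Agent.P8H86.EX
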